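import Pool.Agent.Helper84.BT.Goals

/-!
# Packet BT-SIZ (MP_57df85_nt): the size of the coefficients
-/

set_option autoImplicit false

open Finset

namespace Pool.Agent.Helper3.BT.SIZ

open Pool.Agent.Helper84.BT
open scoped Polynomial

theorem coeff_ph_pow (p q : ℤ) (hp : 2 ≤ p) (hpq : p < q) (n : ℕ) :
    ∀ j : ℕ, |(ph p q ^ n).coeff j| ≤ (2 * q) ^ n * (4 * q) ^ j := by
  have hq : 0 < q := by omega
  induction n with
  | zero =>
    intro j
    rw [pow_zero, pow_zero, one_mul, Polynomial.coeff_one]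
    split_ifs with h
    · rw [h]
      simp
    · rw [abs_zero]
      positivity
  | succ n ih =>
    intro j
    have hc0 : 0 ≤ 4 * (q - p) * (q - 1) := by
      have h1 : 0 ≤ q - p := by omega
      have h2 : 0 ≤ q - 1 := by omega
      positivity
    have hc1 : 4 * (q - p) * (q - 1) ≤ 4 * q ^ 2 := by nlinarith
    rw [pow_succ']
    cases j with
    | zero =>
      have h1 : (ph p q * ph p q ^ n).coeff 0 = q * (ph p q ^ n).coeff 0 := by
        rw [Polynomial.mul_coeff_zero]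
        simp [ph]
      rw [h1, abs_mul, abs_of_pos hq]
      have h2 := ih 0
      have h3 : q * |(ph p q ^ n).coeff 0| ≤ q * ((2 * q) ^ n * (4 * q) ^ 0) :=
        mul_le_mul_of_nonneg_left h2 hq.le
      refine h3.trans ?_
      rw [pow_zero, mul_one, mul_one, pow_succ]
      have h4 : 0 ≤ (2 * q) ^ n := by positivity
      nlinarith
    | succ j =>
      have h1 : (ph p q * ph p q ^ n).coeff (j + 1) = q * (ph p q ^ n).coeff (j + 1) +
          (4 * (q - p) * (q - 1)) * (ph p q ^ n).coeff j := by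
        generalize ph p q ^ n = R
        have h : ph p q * R = Polynomial.C q * R +
            Polynomial.C (4 * (q - p) * (q - 1)) * (Polynomial.X * R) := by
          unfold ph
          ring
        rw [h, Polynomial.coeff_add, Polynomial.coeff_C_mul, Polynomial.coeff_C_mul,
          Polynomial.coeff_X_mul]
      rw [h1]
      refine (abs_add_le _ _).trans ?_
      rw [abs_mul, abs_mul, abs_of_pos hq, abs_of_nonneg hc0]
      have h2 := ih (j + 1)
      have h3 := ih j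
      have h4 : q * |(ph p q ^ n).coeff (j + 1)| ≤ q * ((2 * q) ^ n * (4 * q) ^ (j + 1)) :=
        mul_le_mul_of_nonneg_left h2 hq.le
      have h5 : (4 * (q - p) * (q - 1)) * |(ph p q ^ n).coeff j| ≤
          4 * q ^ 2 * ((2 * q) ^ n * (4 * q) ^ j) :=
        mul_le_mul hc1 h3 (abs_nonneg _) (by positivity)
      have h6 : q * ((2 * q) ^ n * (4 * q) ^ (j + 1)) + 4 * q ^ 2 * ((2 * q) ^ n * (4 * q) ^ j) =
          (2 * q) ^ (n + 1) * (4 * q) ^ (j + 1) := by ring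
      linarith

theorem geom (x : ℤ) (hx : 2 ≤ x) (m : ℕ) : ∑ n ∈ range (m + 1), x ^ n ≤ 2 * x ^ m := by
  induction m with
  | zero => simp
  | succ m ih =>
    rw [sum_range_succ]
    have h1 : 2 * x ^ m ≤ x ^ (m + 1) := by
      rw [pow_succ, mul_comm]
      exact mul_le_mul_of_nonneg_left hx (by positivity)
    linarith

theorem coeff_comp (p q : ℤ) (m : ℕ) (P : ℤ[X]) (j : ℕ) :
    ((sc p m P).comp (ph p q)).coeff j =
      ∑ n ∈ range (m + 1), P.coeff n * (4 * p) ^ (m - n) * (ph p q ^ n).coeff j := by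
  unfold sc
  rw [Polynomial.sum_comp, Polynomial.finsetSum_coeff]
  refine sum_congr rfl fun n _ => ?_
  rw [Polynomial.mul_comp, Polynomial.C_comp, Polynomial.X_pow_comp, Polynomial.coeff_C_mul]

theorem t : S_SIZ := by
  intro hS p q w H t m1 m2 P Q hp hpq hm hw hH hPd hQd hQ hP j hj
  have hq : 0 < q := by omega
  have hp0 : 0 < p := by omega
  have h4p : (1 : ℤ) ≤ 4 * p := by omega
  -- the first part
  have hA : |((sc p m1 P).comp (ph p q)).coeff j| ≤
      4 * H * ((m1 : ℤ) + 1) * (4 * p) ^ m1 * (2 * q) ^ m1 * (4 * q) ^ j := by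
    rw [coeff_comp]
    refine (abs_sum_le_sum_abs _ _).trans ?_
    have h1 : ∀ n ∈ range (m1 + 1), |P.coeff n * (4 * p) ^ (m1 - n) * (ph p q ^ n).coeff j| ≤
        (2 * H * ((m1 : ℤ) + 1) * (4 * p) ^ m1 * (4 * q) ^ j) * (2 * q) ^ n := by
      intro n hn
      have hn' : n ≤ m1 := by
        have := mem_range.1 hn
        omega
      rw [abs_mul, abs_mul, abs_of_nonneg (show (0 : ℤ) ≤ (4 * p) ^ (m1 - n) by positivity)]
      have h2 : |P.coeff n| * (4 * p) ^ (m1 - n) ≤ 2 * H * ((m1 : ℤ) + 1) * (4 * p) ^ m1 := by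
        have h3 : |P.coeff n| * (4 * p) ^ (m1 - n) ≤
            2 * H * ((n : ℤ) + 1) * (4 * p) ^ n * (4 * p) ^ (m1 - n) :=
          mul_le_mul_of_nonneg_right (hP n) (by positivity)
        have h4 : 2 * H * ((n : ℤ) + 1) * (4 * p) ^ n * (4 * p) ^ (m1 - n) =
            2 * H * ((n : ℤ) + 1) * (4 * p) ^ m1 := by
          rw [mul_assoc _ ((4 * p) ^ n), ← pow_add, Nat.add_sub_cancel' hn']
        have h5 : 2 * H * ((n : ℤ) + 1) * (4 * p) ^ m1 ≤ 2 * H * ((m1 : ℤ) + 1) * (4 * p) ^ m1 := by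
          apply mul_le_mul_of_nonneg_right _ (by positivity)
          apply mul_le_mul_of_nonneg_left _ (by positivity)
          have : (n : ℤ) ≤ m1 := by exact_mod_cast hn'
          linarith
        linarith
      have h6 := coeff_ph_pow p q hp hpq n j
      calc |P.coeff n| * (4 * p) ^ (m1 - n) * |(ph p q ^ n).coeff j|
          ≤ (2 * H * ((m1 : ℤ) + 1) * (4 * p) ^ m1) * ((2 * q) ^ n * (4 * q) ^ j) :=
            mul_le_mul h2 h6 (abs_nonneg _) (by positivity)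
        _ = _ := by ring
    refine (sum_le_sum h1).trans ?_
    rw [← mul_sum]
    have h7 := geom (2 * q) (by omega) m1
    calc (2 * H * ((m1 : ℤ) + 1) * (4 * p) ^ m1 * (4 * q) ^ j) * ∑ n ∈ range (m1 + 1), (2 * q) ^ n
        ≤ (2 * H * ((m1 : ℤ) + 1) * (4 * p) ^ m1 * (4 * q) ^ j) * (2 * (2 * q) ^ m1) :=
          mul_le_mul_of_nonneg_left h7 (by positivity)
      _ = _ := by ring
  -- the second part
  have hB : ∀ l : ℕ, |((sc p m1 Q).comp (ph p q)).coeff l| ≤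
      2 * H * (4 * p) ^ m1 * (2 * q) ^ m2 * (4 * q) ^ l := by
    intro l
    rw [coeff_comp]
    have h0 : ∑ n ∈ range (m1 + 1), Q.coeff n * (4 * p) ^ (m1 - n) * (ph p q ^ n).coeff l =
        ∑ n ∈ range (m2 + 1), Q.coeff n * (4 * p) ^ (m1 - n) * (ph p q ^ n).coeff l := by
      symm
      apply sum_subset
      · intro n hn
        rw [mem_range] at hn ⊢
        omega
      · intro n _ hn
        rw [mem_range, not_lt] at hn
        rw [Polynomial.coeff_eq_zero_of_natDegree_lt (by omega), zero_mul, zero_mul]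
    rw [h0]
    refine (abs_sum_le_sum_abs _ _).trans ?_
    have h1 : ∀ n ∈ range (m2 + 1), |Q.coeff n * (4 * p) ^ (m1 - n) * (ph p q ^ n).coeff l| ≤
        (H * (4 * p) ^ m1 * (4 * q) ^ l) * (2 * q) ^ n := by
      intro n hn
      rw [abs_mul, abs_mul, abs_of_nonneg (show (0 : ℤ) ≤ (4 * p) ^ (m1 - n) by positivity)]
      have h2 : |Q.coeff n| * (4 * p) ^ (m1 - n) ≤ H * (4 * p) ^ m1 := by
        apply mul_le_mul (hQ n) _ (by positivity) hH
        exact pow_le_pow_right₀ h4p (Nat.sub_le _ _)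
      have h6 := coeff_ph_pow p q hp hpq n l
      calc |Q.coeff n| * (4 * p) ^ (m1 - n) * |(ph p q ^ n).coeff l|
          ≤ (H * (4 * p) ^ m1) * ((2 * q) ^ n * (4 * q) ^ l) :=
            mul_le_mul h2 h6 (abs_nonneg _) (by positivity)
        _ = _ := by ring
    refine (sum_le_sum h1).trans ?_
    rw [← mul_sum]
    have h7 := geom (2 * q) (by omega) m2
    calc (H * (4 * p) ^ m1 * (4 * q) ^ l) * ∑ n ∈ range (m2 + 1), (2 * q) ^ n
        ≤ (H * (4 * p) ^ m1 * (4 * q) ^ l) * (2 * (2 * q) ^ m2) :=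
          mul_le_mul_of_nonneg_left h7 (by positivity)
      _ = _ := by ring
  -- the coefficients of the series
  have hth : ∀ i : ℕ, |PowerSeries.coeff i (Sr (q - 1) (q - p))| ≤ ((i : ℤ) + 1) * (4 * q) ^ i := by
    intro i
    have h1 := (hS (q - 1) (q - p)).2.2.2 q.toNat
    have h2 : ((q.toNat : ℕ) : ℤ) = q := Int.toNat_of_nonneg hq.le
    rw [h2] at h1
    exact h1 (by rw [abs_of_nonneg (by omega)]; omega) (by rw [abs_of_nonneg (by omega)]; omega) i
  have hC : |PowerSeries.coeff j (Sr (q - 1) (q - p) *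
      (((sc p m1 Q).comp (ph p q) : ℤ[X]) : PowerSeries ℤ))| ≤
      ((j : ℤ) + 1) ^ 2 * (2 * H * (4 * p) ^ m1 * (2 * q) ^ m2 * (4 * q) ^ j) := by
    rw [PowerSeries.coeff_mul]
    refine (abs_sum_le_sum_abs _ _).trans ?_
    have h1 : ∀ x ∈ antidiagonal j, |PowerSeries.coeff x.1 (Sr (q - 1) (q - p)) *
        PowerSeries.coeff x.2 (((sc p m1 Q).comp (ph p q) : ℤ[X]) : PowerSeries ℤ)| ≤
        ((j : ℤ) + 1) * (2 * H * (4 * p) ^ m1 * (2 * q) ^ m2 * (4 * q) ^ j) := by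
      intro x hx
      have hx' : x.1 + x.2 = j := mem_antidiagonal.1 hx
      rw [abs_mul, Polynomial.coeff_coe]
      have h2 := hth x.1
      have h3 := hB x.2
      have h4 : ((x.1 : ℤ) + 1) ≤ (j : ℤ) + 1 := by
        have : x.1 ≤ j := by omega
        have : (x.1 : ℤ) ≤ j := by exact_mod_cast this
        linarith
      calc |PowerSeries.coeff x.1 (Sr (q - 1) (q - p))| *
            |((sc p m1 Q).comp (ph p q)).coeff x.2|
          ≤ (((x.1 : ℤ) + 1) * (4 * q) ^ x.1) *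
              (2 * H * (4 * p) ^ m1 * (2 * q) ^ m2 * (4 * q) ^ x.2) :=
            mul_le_mul h2 h3 (abs_nonneg _) (by positivity)
        _ = ((x.1 : ℤ) + 1) * (2 * H * (4 * p) ^ m1 * (2 * q) ^ m2 * (4 * q) ^ j) := by
            rw [← hx', pow_add]
            ring
        _ ≤ _ := mul_le_mul_of_nonneg_right h4 (by positivity)
    refine (sum_le_sum h1).trans ?_
    rw [sum_const, Nat.card_antidiagonal, nsmul_eq_mul]
    push_cast
    apply le_of_eq
    ring
  -- the sum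
  have hE : PowerSeries.coeff j (Eh p q w m1 P Q) = ((sc p m1 P).comp (ph p q)).coeff j -
      w * PowerSeries.coeff j (Sr (q - 1) (q - p) *
        (((sc p m1 Q).comp (ph p q) : ℤ[X]) : PowerSeries ℤ)) := by
    unfold Eh
    rw [map_sub, Polynomial.coeff_coe, mul_assoc, PowerSeries.coeff_C_mul]
  rw [hE]
  refine (abs_sub _ _).trans ?_
  rw [abs_mul]
  have hw2 : |w| * |PowerSeries.coeff j (Sr (q - 1) (q - p) *
        (((sc p m1 Q).comp (ph p q) : ℤ[X]) : PowerSeries ℤ))| ≤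
      q ^ t * (((j : ℤ) + 1) ^ 2 * (2 * H * (4 * p) ^ m1 * (2 * q) ^ m2 * (4 * q) ^ j)) :=
    mul_le_mul hw hC (abs_nonneg _) (by positivity)
  have hqt : q ^ t * (2 * q) ^ m2 ≤ (2 * q) ^ m1 := by
    rw [hm, pow_add]
    apply mul_le_mul_of_nonneg_right _ (by positivity)
    exact pow_le_pow_left₀ hq.le (by omega) t
  have hw3 : q ^ t * (((j : ℤ) + 1) ^ 2 * (2 * H * (4 * p) ^ m1 * (2 * q) ^ m2 * (4 * q) ^ j)) ≤
      2 * ((j : ℤ) + 1) ^ 2 * (H * (4 * p) ^ m1 * (2 * q) ^ m1 * (4 * q) ^ j) := by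
    calc q ^ t * (((j : ℤ) + 1) ^ 2 * (2 * H * (4 * p) ^ m1 * (2 * q) ^ m2 * (4 * q) ^ j))
        = (2 * ((j : ℤ) + 1) ^ 2 * H * (4 * p) ^ m1 * (4 * q) ^ j) * (q ^ t * (2 * q) ^ m2) := by
          ring
      _ ≤ (2 * ((j : ℤ) + 1) ^ 2 * H * (4 * p) ^ m1 * (4 * q) ^ j) * (2 * q) ^ m1 :=
          mul_le_mul_of_nonneg_left hqt (by positivity)
      _ = _ := by ring
  have hjm : (j : ℤ) + 1 ≤ (m1 : ℤ) + 1 := by
    have : (j : ℤ) ≤ m1 := by exact_mod_cast hj
    linarith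
  have hnum : 4 * ((m1 : ℤ) + 1) + 2 * ((j : ℤ) + 1) ^ 2 ≤ 6 * ((m1 : ℤ) + 1) ^ 2 := by
    have h1 : ((j : ℤ) + 1) ^ 2 ≤ ((m1 : ℤ) + 1) ^ 2 := pow_le_pow_left₀ (by positivity) hjm 2
    have h2 : ((m1 : ℤ) + 1) ≤ ((m1 : ℤ) + 1) ^ 2 := by nlinarith
    linarith
  have hfin : (4 * ((m1 : ℤ) + 1) + 2 * ((j : ℤ) + 1) ^ 2) *
      (H * (4 * p) ^ m1 * (2 * q) ^ m1 * (4 * q) ^ j) ≤ 6 * ((m1 : ℤ) + 1) ^ 2 *
      (H * (4 * p) ^ m1 * (2 * q) ^ m1 * (4 * q) ^ j) :=
    mul_le_mul_of_nonneg_right hnum (by positivity)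
  calc |((sc p m1 P).comp (ph p q)).coeff j| + |w| * |PowerSeries.coeff j (Sr (q - 1) (q - p) *
        (((sc p m1 Q).comp (ph p q) : ℤ[X]) : PowerSeries ℤ))|
      ≤ 4 * H * ((m1 : ℤ) + 1) * (4 * p) ^ m1 * (2 * q) ^ m1 * (4 * q) ^ j +
        2 * ((j : ℤ) + 1) ^ 2 * (H * (4 * p) ^ m1 * (2 * q) ^ m1 * (4 * q) ^ j) :=
        add_le_add hA (hw2.trans hw3)
    _ = (4 * ((m1 : ℤ) + 1) + 2 * ((j : ℤ) + 1) ^ 2) *
      (H * (4 * p) ^ m1 * (2 * q) ^ m1 * (4 * q) ^ j) := by ring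
    _ ≤ 6 * ((m1 : ℤ) + 1) ^ 2 * (H * (4 * p) ^ m1 * (2 * q) ^ m1 * (4 * q) ^ j) := hfin
    _ = _ := by ring

end Pool.Agent.Helper3.BT.SIZ
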